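import Pool.Agent.helper9.HQ.Main

/-!
# Subgraphs of the hypercube between the Hamming balls of radius 1 and 2

`V d` is `Fin d → Bool`; `cube d` joins two strings at Hamming distance one; `sub U` is the
subgraph induced on `U`; `IsEig U t` says that `t` is an eigenvalue of its adjacency matrix;
`IsTop U t` that it is the largest one; `lam d m` is the maximum of the largest eigenvalue over
all sets of `m` vertices.
-/

namespace Pool.Agent.helper9.Reserve.BetweenBalls

open Pool.Agent.helper65.HC

/-- the value of the quasi-star: the empty set, the singletons and the pairs meeting `s d` coordinates -/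
noncomputable def cS (s : ℝ) : ℝ := 1 + s + √(4 * s - 3 * s ^ 2)

/-- the value of the quasi-clique: the empty set, the singletons and the pairs inside `t d` coordinates -/
noncomputable def cC (t : ℝ) : ℝ := (1 + 2 * t + √(1 - 4 * t + 12 * t ^ 2)) / 2

/-- the limit function; `a` is the proportion of the pairs -/
noncomputable def c (a : ℝ) : ℝ := max (cS (1 - √(1 - a))) (cC (√a))

theorem result : ∀ eps : ℝ, 0 < eps → ∃ d₀ : ℕ, ∀ d ≥ d₀, ∀ m : ℕ,
    d + 1 ≤ m → m ≤ 1 + d + d.choose 2 →
    |lam d m ^ 2 / d - c (min 1 (2 * m / d ^ 2))| < eps ∧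
      IsGreatest {t | ∃ U : Finset (V d), U.card = m ∧ IsTop U t} (lam d m) :=
  Pool.Agent.helper9.HQ.main

end Pool.Agent.helper9.Reserve.BetweenBalls
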