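import Pool.Agent.helper9.DZ.Final

/-!
# MP_65b1f6_lc: the word problem of `ℤ² * ℤ` is not an intersection of finitely many
# deterministic context-free languages

`DZ.DPDA` (file `Pool/Agent/helper9/DZ/Defs.lean`) is the usual notion of a deterministic pushdown
automaton: finite data `eps : Q → Γ → Option (Q × List Γ)` (moves without input),
`rd : Q → Γ → α → Option (Q × List Γ)` (moves reading a letter), where the presence of an `eps`
move excludes reading moves; an initial state, an initial stack symbol and a set of final states.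
Its semantics is given below by the one-step relation on configurations.
-/

set_option autoImplicit false

namespace Pool.Agent.Results.MP_65b1f6_lc.DeterministicPoly

open DZ

/-- One move on configurations (state, remaining input, stack); the top of the stack is the head of
the list, and a move replaces it by a word. -/
inductive Step {α Q Γ : Type} (M : DPDA α Q Γ) :
    Q × List α × List Γ → Q × List α × List Γ → Prop
  | eps {q q' : Q} {Z : Γ} {μ γ : List Γ} {w : List α} :
      M.eps q Z = some (q', μ) → Step M (q, w, Z :: γ) (q', w, μ ++ γ)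
  | read {q q' : Q} {Z : Γ} {μ γ : List Γ} {a : α} {w : List α} :
      M.rd q Z a = some (q', μ) → Step M (q, a :: w, Z :: γ) (q', w, μ ++ γ)

/-- Acceptance by final state. -/
def Accepts {α Q Γ : Type} (M : DPDA α Q Γ) (w : List α) : Prop :=
  ∃ q ∈ M.final, ∃ γ, Relation.ReflTransGen (Step M) (M.start, w, [M.bot]) (q, [], γ)

/-- A deterministic context-free language: the language accepted by final state by a deterministic
pushdown automaton with finitely many states and stack symbols. -/
def IsDCFL {α : Type} (L : Language α) : Prop :=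
  ∃ (Q Γ : Type) (_ : Finite Q) (_ : Finite Γ) (M : DPDA α Q Γ), ∀ w, w ∈ L ↔ Accepts M w

theorem reflTransGen_of_runN {α Q Γ : Type} {M : DPDA α Q Γ} {n : ℕ} {C C' : Q × List Γ}
    {w : List α} (h : M.RunN n C w C') (v : List α) :
    Relation.ReflTransGen (Step M) (C.1, w ++ v, C.2) (C'.1, v, C'.2) := by
  induction h with
  | refl C => exact Relation.ReflTransGen.refl
  | eps h _ ih => exact Relation.ReflTransGen.head (Step.eps h) ih
  | read h _ ih => exact Relation.ReflTransGen.head (Step.read h) ih

theorem run_of_reflTransGen {α Q Γ : Type} {M : DPDA α Q Γ} {c d : Q × List α × List Γ}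
    (h : Relation.ReflTransGen (Step M) c d) (hd : d.2.1 = []) :
    M.Run (c.1, c.2.2) c.2.1 (d.1, d.2.2) := by
  induction h using Relation.ReflTransGen.head_induction_on with
  | refl =>
    rw [hd]
    exact DPDA.Run.refl _
  | head h _ ih =>
    obtain ⟨n, hn⟩ := ih
    cases h with
    | eps h => exact ⟨n + 1, DPDA.RunN.eps h hn⟩
    | read h => exact ⟨n + 1, DPDA.RunN.read h hn⟩

theorem accepts_iff {α Q Γ : Type} (M : DPDA α Q Γ) (w : List α) :
    Accepts M w ↔ w ∈ M.lang := by
  constructor
  · rintro ⟨q, hq, γ, h⟩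
    exact ⟨(q, γ), run_of_reflTransGen h rfl, hq⟩
  · rintro ⟨⟨q, γ⟩, ⟨n, h⟩, hq⟩
    refine ⟨q, hq, γ, ?_⟩
    have := reflTransGen_of_runN h []
    simpa using this

/-- The word problem of `ℤ² * ℤ = ⟨a, b, c | ab = ba⟩`, over the standard generators and their
inverses, is not an intersection of finitely many deterministic context-free languages. -/
theorem result :
    ¬ ∃ (n : ℕ) (L : Fin n → Language (Fin 6)),
      (∀ i, IsDCFL (L i)) ∧
      ∀ w : List (Fin 6),
        ((w.map
          (![Monoid.Coprod.inl (Multiplicative.ofAdd ((1, 0) : ℤ × ℤ)),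
             (Monoid.Coprod.inl (Multiplicative.ofAdd ((1, 0) : ℤ × ℤ)))⁻¹,
             Monoid.Coprod.inl (Multiplicative.ofAdd ((0, 1) : ℤ × ℤ)),
             (Monoid.Coprod.inl (Multiplicative.ofAdd ((0, 1) : ℤ × ℤ)))⁻¹,
             Monoid.Coprod.inr (Multiplicative.ofAdd (1 : ℤ)),
             (Monoid.Coprod.inr (Multiplicative.ofAdd (1 : ℤ)))⁻¹] :
            Fin 6 → Monoid.Coprod (Multiplicative (ℤ × ℤ)) (Multiplicative ℤ))).prod = 1
          ↔ ∀ i, w ∈ L i) := by
  rintro ⟨n, L, hL, hw⟩
  obtain ⟨w, hw1, hw2⟩ := DZ.main L (fun i => by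
    obtain ⟨Q, Γ, hQ, hΓ, M, hM⟩ := hL i
    refine ⟨Q, Γ, hQ, hΓ, M, ?_⟩
    ext w
    exact ((hM w).trans (accepts_iff M w)).symm) (fun w h => (hw w).1 h)
  exact hw1 ((hw w).2 hw2)

end Pool.Agent.Results.MP_65b1f6_lc.DeterministicPoly
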